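import Pool.Agent.helper60.DB.SpecM

/-! Project bm (MP_fb2c2a_nt), row TE: proportional unimodular triples. -/

namespace Pool.Agent.helper60.DB

open Polynomial

theorem TE : TE_stmt := by
  intro K _ a b c a' b' c' u v w u' v' w' h h' h1 h2 h3
  have ha : (u' * a + v' * b + w' * c) * a' = a := by linear_combination a * h' - v' * h1 - w' * h2
  have hb : (u' * a + v' * b + w' * c) * b' = b := by linear_combination b * h' + u' * h1 - w' * h3
  have hc : (u' * a + v' * b + w' * c) * c' = c := by linear_combination c * h' + u' * h2 + v' * h3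
  obtain ⟨κ, hκ⟩ : ∃ κ, κ = u' * a + v' * b + w' * c := ⟨_, rfl⟩
  rw [← hκ] at ha hb hc
  have hu : IsUnit κ := by
    refine IsUnit.of_mul_eq_one (u * a' + v * b' + w * c') ?_
    linear_combination u * ha + v * hb + w * hc + h
  obtain ⟨k, hk, rfl⟩ := Polynomial.isUnit_iff.1 hu
  have hk0 : k ≠ 0 := hk.ne_zero
  rw [← ha, ← hb, ← hc, natDegree_C_mul hk0, natDegree_C_mul hk0, natDegree_C_mul hk0]

end Pool.Agent.helper60.DB
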